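import Pool.Agent.H73.CBE.Stmts

/-!
Row PCK of the board cbe (MP_e1af46_an), helper85: packing.
-/

set_option autoImplicit false

open Set Filter Topology

namespace Pool.CBE

theorem PCK_thm (_h1 : DLBStmt) (h2 : PCAStmt) (h3 : PCBStmt) : PCKStmt := by
  intro n s t T z hn hs ht hT hz
  have h5 : (1 : ℝ) ≤ 5 ^ (2 * n) := one_le_pow₀ (by norm_num)
  have hq0 : (0 : ℝ) ≤ 4 * t / s := by positivity
  have hb0 : (0 : ℝ) ≤ (1 + 4 * t / s) ^ (2 * n - 2) := by positivity
  rcases le_or_gt t (1 / 2) with hth | hth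
  · have h := h2 n s t T z hn hs ht hth hT hz
    refine h.trans ?_
    exact le_mul_of_one_le_left hb0 h5
  · obtain ⟨Y, hY, hYc⟩ := h3 n
    have hcov : near T z t ⊆ Y.biUnion fun y => near T y (1 / 2) := by
      intro x hx
      unfold near at hx
      rw [Finset.mem_filter] at hx
      obtain ⟨y, hyY, hyx⟩ := hY.2 x (hT.1 x hx.1)
      rw [Finset.mem_biUnion]
      refine ⟨y, hyY, ?_⟩
      unfold near
      rw [Finset.mem_filter]
      exact ⟨hx.1, hyx.le⟩
    have hc1 : ((near T z t).card : ℝ) ≤ ∑ y ∈ Y, ((near T y (1 / 2)).card : ℝ) := by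
      have e1 := (Finset.card_le_card hcov).trans Finset.card_biUnion_le
      exact_mod_cast e1
    have hc2 : ∀ y ∈ Y, ((near T y (1 / 2)).card : ℝ) ≤ (1 + 4 * t / s) ^ (2 * n - 2) := by
      intro y hy
      have e1 := h2 n s (1 / 2) T y hn hs (by norm_num) le_rfl hT (hY.1.1 y hy)
      refine e1.trans ?_
      refine pow_le_pow_left₀ (by positivity) ?_ _
      have e2 : 4 * (1 / 2) / s ≤ 4 * t / s :=
        div_le_div_of_nonneg_right (by linarith) hs.le
      linarith
    have hc3 := Finset.sum_le_sum hc2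
    rw [Finset.sum_const, nsmul_eq_mul] at hc3
    refine hc1.trans (hc3.trans ?_)
    refine mul_le_mul_of_nonneg_right ?_ hb0
    exact_mod_cast hYc

end Pool.CBE
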